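import Pool.Agent.Helper31.MHS.Goals2
import Pool.Agent.Helper59.Ram.MLS

set_option autoImplicit false

set_option exponentiation.threshold 50000

/-!
# Machines with several heads and descriptions of their tapes: the decision is computed in linear space
-/

namespace Pool.Agent.Helper96.MHS

open Pool.Agent.Helper31.MHS
open Pool.Agent.Helper65.LinSpace Pool.Agent.Helper78.Mpc Pool.Agent.Helper28.Ram Finset Filter
open Pool.Agent.Helper65.OH (kap)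
open Pool.Agent.Helper28.Long (ZL)
open Pool.Agent.Helper65.RT (qT CT LSM Sim Par)
open Pool.Agent.Helper20.MH (MultiHead Prm Sys Conf ParM FnsM GoodM InBox cz PFM SLS STM_stmt
  TRU_stmt LSS_stmt MLM_stmt)

section

variable {α : Type} [Ctx α]

theorem LS_ZL {n : α → ℕ} (hn : LS n) : LS (fun z => ZL (n z)) := by
  unfold Pool.Agent.Helper28.Long.ZL
  have h1 : LS (fun z => LW (n z)) := LS.LW hn
  have h2 : LS (fun z => ll (ll (n z))) := by
    unfold ll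
    fun_prop
  exact LS.div h1 h2

theorem LS_CT {x : α → ℕ} (hx : LS x) : LS (fun z => CT (x z)) := by
  unfold Pool.Agent.Helper65.RT.CT
  exact (LS.add hx (LS.const 2)).pow_const 4000

theorem LS_gw {n D K S b c R E G d Z : α → ℕ} (hn : LS n) (hD : LS D) (hK : LS K) (hS : LS S)
    (hb : LS b) (hc : LS c) (hR : LS R) (hE : LS E) (hG : LS G) (hd : LS d) (hZ : LS Z) :
    LS (fun z => gw (n z) (D z) (K z) (S z) (b z) (c z) (R z) (E z) (G z) (d z) (Z z)) := by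
  have hL : LS (fun z => ZL (n z)) := LS_ZL hn
  unfold gw kap qT ll
  fun_prop

theorem LS_cfi {u : α → ℕ} (hu : LS u) (i : ℕ) : LS (fun z => cfi (u z) i) := by
  unfold cfi
  exact LS.dig (LS.unpair1 hu) (LS.unpair2 hu) (LS.const i)

theorem LS_bsW {x : α → ℕ} (hx : LS x) : LS (fun z => bsW (x z)) := by
  unfold bsW
  fun_prop

theorem LS_dT {x T : α → ℕ} (hx : LS x) (hT : LS T) (i : ℕ) :
    LS (fun z => dig (bsW (x z)) (T z) i) :=
  LS.dig (LS_bsW hx) hT (LS.const i)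

theorem LS_gT {u x T : α → ℕ} (hu : LS u) (hx : LS x) (hT : LS T) :
    LS (fun z => gT (u z) (x z) (T z)) := by
  unfold gT
  exact LS_gw (LS.log2 hx) (LS_cfi hu 0) (LS_cfi hu 1) (LS_dT hx hT 0) (LS_dT hx hT 1)
    (LS_dT hx hT 2) (LS_dT hx hT 3) (LS_dT hx hT 4) (LS_dT hx hT 5) (LS_dT hx hT 6)
    (LS_dT hx hT 7)

theorem LS_β {x : α → ℕ} (hx : LS x) : LS (fun z => 2 ^ (2 * ll (Nat.log 2 (x z)))) :=
  LS.pow_of_le (f := fun _ => 2) (LS.const 2) (LS.mul (LS.const 2) (LS.ll (LS.log2 hx)))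
    (Pool.Agent.Helper59.Ram.LS_CR hx) fun z => Pool.Agent.Helper59.Ram.pow_ll_le (x z)

theorem guw_PT (hG : GUW_stmt) (u x y T : ℕ) :
    GUW x (cfi u 0) (cfi u 1) (dig (bsW x) T 0) (dig (bsW x) T 1) (dig (bsW x) T 2)
      (dig (bsW x) T 3) (dig (bsW x) T 4) (dig (bsW x) T 5) (dig (bsW x) T 6)
      (dig (bsW x) T 7) (gT u x T) (PT u x y T) :=
  hG _ _ _ _ _ _ _ _ _ _ _ _ _ _ _ _ _ _ _

theorem pfw_PT (hG : GUW_stmt) {u x y T : α → ℕ} (hu : LS u) (hx : LS x) (hy : LS y)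
    (hT : LS T) : PFW (fun z => PT (u z) (x z) (y z) (T z)) (fun z => CT (x z)) := by
  have h := fun z => guw_PT hG (u z) (x z) (y z) (T z)
  have hg : LS (fun z => gT (u z) (x z) (T z)) := LS_gT hu hx hT
  have hn : LS (fun z => Nat.log 2 (x z)) := LS.log2 hx
  have hc : ∀ i, LS (fun z => cfi (u z) i) := LS_cfi hu
  have hd : ∀ i, LS (fun z => dig (bsW (x z)) (T z) i) := LS_dT hx hT
  have hi : ∀ (a : ℕ) {v : α → ℕ}, LS v → LS (fun z => ifz (gT (u z) (x z) (T z)) a (v z)) :=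
    fun a v hv => LS.ifz hg (LS.const a) hv
  refine ⟨⟨?_, ?_, ?_, ?_, ?_, ?_, ?_, ?_, ?_, ?_, ?_, ?_, ?_, ?_, ?_, ?_, ?_, ?_, ?_, ?_, ?_,
    ?_, ?_, ?_, ?_, ?_, ?_⟩, ?_, ?_, ?_, ?_, ?_, ?_, ?_, ?_, ?_, ?_, ?_, ?_, ?_, ?_⟩
  · exact hc 3
  · exact hc 4
  · exact hc 5
  · exact hc 6
  · exact hx
  · exact hy
  · exact LS.LW hn
  · exact LS_β hx
  · exact Pool.Agent.Helper59.Ram.LS_CR hx
  · dsimp only [PT, pw]
    exact hi 0 (hc 0)
  · dsimp only [PT, pw]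
    exact hi 0 (hc 1)
  · exact hc 2
  · dsimp only [PT, pw]
    exact hi 0 (hd 0)
  · dsimp only [PT, pw]
    exact LS.add (hi 0 (hd 1)) (LS.const 1)
  · dsimp only [PT, pw]
    exact hi 1 (hd 2)
  · dsimp only [PT, pw]
    exact hi 0 (hd 3)
  · exact LS_CT hx
  · exact fun z => (h z).bβ.1
  · exact fun z => (h z).bβ.2
  · exact fun z => (h z).pos.1
  · exact fun z => (h z).pos.2.1
  · exact fun z => (h z).bD.1
  · exact fun z => (h z).bD.2.1
  · exact fun z => (h z).bD.2.2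
  · exact fun z => (h z).hC0.1
  · exact fun z => (h z).hC0.2.1
  · exact fun z => (h z).hC0.2.2
  · dsimp only [PT, pw]
    exact hi 0 (hd 7)
  · exact hc 7
  · exact hc 8
  · dsimp only [PT, pw]
    refine hi 0 ?_
    unfold kap ll
    fun_prop
  · dsimp only [PT, pw]
    exact hi 1 (hd 4)
  · dsimp only [PT, pw]
    exact hi 1 (hd 5)
  · dsimp only [PT, pw]
    exact hi 0 (hd 6)
  · exact fun z => (h z).pos.2.2.1
  · exact fun z => (h z).pos.2.2.2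
  · exact fun z => (h z).bZ
  · exact fun z => (h z).bN
  · exact fun z => (h z).hC1
  · exact fun z => (h z).hC2
  · exact fun z => (h z).hC3

end

/-- LSA. -/
theorem lsa (hG : GUW_stmt) (hF : LSF_stmt) (hR : LSR_stmt) : LSA_stmt := by
  refine ⟨fun Q c => ?_, ?_⟩
  · have hu : LS (fun z : ℕ × ℕ × ℕ × ℕ => z.1) := by fun_prop
    have hx : LS (fun z : ℕ × ℕ × ℕ × ℕ => z.2.1) := by fun_prop
    have hy : LS (fun z : ℕ × ℕ × ℕ × ℕ => z.2.2.1) := by fun_prop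
    have hT : LS (fun z : ℕ × ℕ × ℕ × ℕ => z.2.2.2) := by fun_prop
    have hu' : LS (fun z : (ℕ × ℕ × ℕ × ℕ) × ℕ × ℕ × ℕ => z.1.1) := by fun_prop
    have hx' : LS (fun z : (ℕ × ℕ × ℕ × ℕ) × ℕ × ℕ × ℕ => z.1.2.1) := by fun_prop
    have hy' : LS (fun z : (ℕ × ℕ × ℕ × ℕ) × ℕ × ℕ × ℕ => z.1.2.2.1) := by fun_prop
    have hT' : LS (fun z : (ℕ × ℕ × ℕ × ℕ) × ℕ × ℕ × ℕ => z.1.2.2.2) := by fun_prop
    have hFF : LS (fun z : (ℕ × ℕ × ℕ × ℕ) × ℕ × ℕ × ℕ =>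
        FF Q (Nat.log 2 z.1.2.1) (PT z.1.1 z.1.2.1 z.1.2.2.1 z.1.2.2.2) z.2.1 z.2.2.1
          z.2.2.2) :=
      hF Q (P := fun z : (ℕ × ℕ × ℕ × ℕ) × ℕ × ℕ × ℕ => PT z.1.1 z.1.2.1 z.1.2.2.1 z.1.2.2.2)
        (x := fun z => z.1.2.1) (c := fun z => z.2.1) (τ := fun z => z.2.2.1)
        (X := fun z => z.2.2.2) hx' (pfw_PT hG hu' hx' hy' hT')
        (fun z c' τ X => (guw_PT hG _ _ _ _).par c' τ X) (by fun_prop) (by fun_prop)
        (by fun_prop)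
    have hv : LS (fun z : ℕ × ℕ × ℕ × ℕ => c * Nat.log 2 z.2.1) :=
      LS.mul (LS.const c) (LS.log2 hx)
    have hC' : LS (fun z : ℕ × ℕ × ℕ × ℕ => 2 * (z.2.1 + 2) ^ (2 * c)) :=
      LS.mul (LS.const 2) ((LS.add hx (LS.const 2)).pow_const (2 * c))
    have hb : ∀ z : ℕ × ℕ × ℕ × ℕ, 2 ^ (c * Nat.log 2 z.2.1 + 1) ≤
        2 * (z.2.1 + 2) ^ (2 * c) := by
      intro z
      rw [pow_succ, mul_comm]
      refine Nat.mul_le_mul_left 2 (le_trans ?_ (two_pow_log_le z.2.1 c))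
      exact Nat.pow_le_pow_right (by norm_num) (Nat.mul_le_mul_left _ (Nat.le_succ _))
    have hr := hR (P := fun z : ℕ × ℕ × ℕ × ℕ => PT z.1 z.2.1 z.2.2.1 z.2.2.2)
      (C := fun z => CT z.2.1) (C' := fun z => 2 * (z.2.1 + 2) ^ (2 * c))
      (v := fun z => c * Nat.log 2 z.2.1)
      (F := fun z => FF Q (Nat.log 2 z.2.1) (PT z.1 z.2.1 z.2.2.1 z.2.2.2))
      (pfw_PT hG hu hx hy hT) hFF hv hC' hb
    unfold accW
    exact LS.mul (LS_gT hu hx hT) hr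
  · have h1 : LS (fun x : ℕ => x) := by fun_prop
    unfold NBW
    exact (LS_bsW h1).pow_const 8

end Pool.Agent.Helper96.MHS
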